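import Pool.Agent.Lib.MP_5b8c2d_co.Main

set_option autoImplicit false

open Pool.Agent.Lib.MP_5b8c2d_co

namespace Pool.Agent.Results.MP_5b8c2d_co.Main

/-- For every `m ≥ 1` there are a tree `T` and a graph `Y` on `4 m` vertices such that some
connected component of `FS(T, Y)` contains two vertices at distance at least `2 ^ m`. -/
theorem result (m : ℕ) (hm : 1 ≤ m) :
    ∃ T Y : SimpleGraph (Fin (4 * m)), T.IsTree ∧
      ∃ σ τ : Fin (4 * m) ≃ Fin (4 * m),
        (FS T Y).Reachable σ τ ∧ 2 ^ m ≤ (FS T Y).dist σ τ := by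
  obtain ⟨n, rfl⟩ : ∃ n, m = n + 1 := ⟨m - 1, by omega⟩
  exact ⟨T (4 * n + 4), Y (4 * n + 4), T_isTree (4 * n + 3), main n⟩

end Pool.Agent.Results.MP_5b8c2d_co.Main
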